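import Mathlib
import Pool.Agent.Q76.FatPlanData

/-!
# MP_e338b6_an: smooth compactly supported densities all of whose `W₁`-optimal couplings have
support of Hausdorff dimension at least `n + 1`, for every `n ≥ 2`
-/

namespace Pool.Agent.Results.MP_e338b6_an.FatSupport

open MeasureTheory
open scoped ENNReal ContDiff

/-- `f` is a smooth compactly supported probability density on `ℝⁿ`. -/
structure IsSmoothDensity {n : ℕ} (f : EuclideanSpace ℝ (Fin n) → ℝ) : Prop where
  smooth : ContDiff ℝ ∞ f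
  compact : HasCompactSupport f
  nonneg : ∀ x, 0 ≤ f x
  mass : ∫ x, f x = 1

/-- The measure `f 𝓛ⁿ`. -/
noncomputable def densityMeasure {n : ℕ} (f : EuclideanSpace ℝ (Fin n) → ℝ) :
    Measure (EuclideanSpace ℝ (Fin n)) :=
  volume.withDensity fun x => ENNReal.ofReal (f x)

/-- `π` is a coupling of `μ` and `ν`. -/
def IsCoupling {X : Type*} [MeasurableSpace X] (μ ν : Measure X) (π : Measure (X × X)) : Prop :=
  (∀ A, MeasurableSet A → π (A ×ˢ Set.univ) = μ A) ∧
    ∀ A, MeasurableSet A → π (Set.univ ×ˢ A) = ν A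

/-- The cost `∫ |x - y| dπ(x, y)`. -/
noncomputable def cost {n : ℕ}
    (π : Measure (EuclideanSpace ℝ (Fin n) × EuclideanSpace ℝ (Fin n))) : ℝ≥0∞ :=
  ∫⁻ p, ENNReal.ofReal ‖p.1 - p.2‖ ∂π

/-- `π` is an optimal coupling of `μ` and `ν`. -/
def IsOptimal {n : ℕ} (μ ν : Measure (EuclideanSpace ℝ (Fin n)))
    (π : Measure (EuclideanSpace ℝ (Fin n) × EuclideanSpace ℝ (Fin n))) : Prop :=
  IsCoupling μ ν π ∧ ∀ π', IsCoupling μ ν π' → cost π ≤ cost π'

/-- The Hausdorff dimension of a subset of `ℝⁿ × ℝⁿ = ℝ²ⁿ`, for the Euclidean metric of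
`ℝ²ⁿ`. -/
noncomputable def dimEuclid {n : ℕ}
    (S : Set (EuclideanSpace ℝ (Fin n) × EuclideanSpace ℝ (Fin n))) : ℝ≥0∞ :=
  dimH (WithLp.toLp 2 '' S)

lemma cost_eq {m : ℕ} (π : Measure (Q76.FatPlan.E m × Q76.FatPlan.E m)) :
    cost π = Q76.FatPlan.cost π := by
  unfold cost Q76.FatPlan.cost
  simp_rw [edist_dist, dist_eq_norm]

lemma coupling_iff {m : ℕ} {μ ν : Measure (Q76.FatPlan.E m)}
    {π : Measure (Q76.FatPlan.E m × Q76.FatPlan.E m)} :
    IsCoupling μ ν π ↔ Q76.FatPlan.IsCoupling μ ν π :=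
  ⟨fun h => ⟨h.1, h.2⟩, fun h => ⟨h.fst, h.snd⟩⟩

lemma integral_dens {m : ℕ} (D : Q76.FatPlan.Data m) (a : ℕ → Q76.FatPlan.E m) :
    ∫ x, D.dens a x = 1 := by
  have hcont : Continuous (D.dens a) := (D.smooth a).continuous
  rw [integral_eq_lintegral_of_nonneg_ae (Filter.Eventually.of_forall (D.dens_nonneg a))
    hcont.aestronglyMeasurable, ← Q76.FatPlan.M_apply_univ, D.M_dens_univ]
  simp

/-- For every `n ≥ 2` there are smooth compactly supported probability densities `f`, `g` on `ℝⁿ`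
such that an optimal coupling for the cost `|x - y|` exists and every optimal coupling has support
of Hausdorff dimension at least `n + 1`. -/
theorem result : ∀ n : ℕ, 2 ≤ n → ∃ f g : EuclideanSpace ℝ (Fin n) → ℝ,
    IsSmoothDensity f ∧ IsSmoothDensity g ∧
    (∃ π, IsOptimal (densityMeasure f) (densityMeasure g) π) ∧
    ∀ π, IsOptimal (densityMeasure f) (densityMeasure g) π →
      ((n + 1 : ℕ) : ℝ≥0∞) ≤ dimEuclid π.support := by
  intro n hn
  obtain ⟨m, rfl⟩ : ∃ m, n = m + 2 := ⟨n - 2, by omega⟩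
  obtain ⟨D, -⟩ := Q76.FatPlan.exists_data m
  refine ⟨D.f, D.g, ⟨D.smooth _, D.hasCompactSupport_dens (R := 0) _ (fun i => by simp),
      D.dens_nonneg _, integral_dens D _⟩,
    ⟨D.smooth _, D.hasCompactSupport_dens _ D.norm_disp, D.dens_nonneg _, integral_dens D _⟩,
    ⟨D.plan, coupling_iff.mpr D.plan_isCoupling, fun π' hπ' => ?_⟩, fun π hπ => ?_⟩
  · rw [cost_eq, cost_eq]
    exact D.plan_optimal (coupling_iff.mp hπ')
  · have h1 := hπ.2 D.plan (coupling_iff.mpr D.plan_isCoupling)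
    rw [cost_eq, cost_eq] at h1
    have h2 := D.dimH_support (coupling_iff.mp hπ.1) h1
    refine h2.trans ?_
    have h3 := (WithLp.prod_lipschitzWith_ofLp 2 (Q76.FatPlan.E m)
      (Q76.FatPlan.E m)).dimH_image_le (WithLp.toLp 2 '' π.support)
    rw [Set.image_image] at h3
    simpa [dimEuclid] using h3

end Pool.Agent.Results.MP_e338b6_an.FatSupport
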